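import Pool.Agent.U191.CMN.Main

/-!
# The example of elliptic curves with complex multiplication

For an elliptic curve `E` with an endomorphism `u`, `u ^ 2 = -d < 0`, the motive `h^1(E)` is a motive
with complex multiplication in the sense of `IsCMMotive`, with the polynomial `t ^ 2 + d`. All
properties, also the one which is called `kimura`, are proved here from the theorem of the cube.
-/

open CategoryTheory AlgebraicGeometry

universe u v w

namespace Pool.Agent.U191.CMN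

open Pool.Agent.H914 Pool.Agent.H914.VarClass Pool.Agent.H914.VarClass.Obj Pool.Agent.W492.BB
  Pool.Agent.W550.Corr Pool.Agent.TH133 Pool.Agent.Y152.AS Pool.Agent.TH829.Kim
open Pool.Agent.R904.Voi (vl pull_vl vl_univ vl_mem vl_add vl_sub vl_smul vl_sum vl_pull vl_fst
  vl_snd vl_tp vl_comp pull_act ext_vl smul_comp1 comp_smul1 midProj mid_idem mid_fix)
open Pool.Agent.R904.CM (vl_tens vl_neg PicardOfProducts Setup pE vl_pE graph1 IsCMCurve)

set_option linter.unusedSectionVars false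

variable {k : Type u} [Field k] {𝒱 : VarClass k} {C : TheoryData.{u, v, 0} 𝒱 ℚ}
  [hC : IsChowProj C] {E : 𝒱.Obj} [GroupLaw E] {θ : C.A E} {φ : E ⟶ E} {d : ℕ}
  {W : 𝒱.Obj}

/-- The relation between the bilinear classes on a curve. -/
lemma three_terms (hE : E.dim = 1) (hθ : C.Deg 1 θ) (hc : Cube θ) (x w y z : W ⟶ E) :
    bC θ x y * bC θ w z + bC θ w y * bC θ x z + bC θ x w * bC θ y z = 0 := by
  have h0 : ∀ x : W ⟶ E, eC θ x * eC θ x = 0 := by
    intro x
    have h1 : θ * θ = 0 := hC.gr_top _ (1 + 1) _ (C.mul_mem hθ hθ) (by rw [hE]; norm_num)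
    rw [eC, ← map_mul, h1, map_zero]
  have h1 : ∀ x y : W ⟶ E, bC θ x y * bC θ x y = -((2 : ℚ) • (eC θ x * eC θ y)) := by
    intro x y
    have a1 := h0 (x + y)
    have a2 := h0 (x + -y)
    rw [eC_add] at a1 a2
    rw [bC_neg_right hc, eC_neg hc] at a2
    have a3 : (2 : ℚ) • (bC θ x y * bC θ x y + (2 : ℚ) • (eC θ x * eC θ y)) = 0 := by
      have a4 : (2 : ℚ) • (bC θ x y * bC θ x y + (2 : ℚ) • (eC θ x * eC θ y)) =
          (eC θ x + eC θ y + bC θ x y) * (eC θ x + eC θ y + bC θ x y) +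
          (eC θ x + eC θ y + -bC θ x y) * (eC θ x + eC θ y + -bC θ x y) -
          (2 : ℚ) • (eC θ x * eC θ x) - (2 : ℚ) • (eC θ y * eC θ y) := by
        simp only [two_smul]
        ring
      rw [a4, a1, a2, h0, h0]
      simp
    have a5 := (smul_eq_zero.1 a3).resolve_left (by norm_num)
    exact eq_neg_of_add_eq_zero_left a5
  have h2 : ∀ x y z : W ⟶ E, bC θ x y * bC θ x z = -(eC θ x * bC θ y z) := by
    intro x y z
    have a1 := h1 x (y + z)
    rw [bC_add_right hc, eC_add] at a1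
    have a2 : (2 : ℚ) • (bC θ x y * bC θ x z + eC θ x * bC θ y z) = 0 := by
      have a3 : (2 : ℚ) • (bC θ x y * bC θ x z + eC θ x * bC θ y z) =
          ((bC θ x y + bC θ x z) * (bC θ x y + bC θ x z) +
            (2 : ℚ) • (eC θ x * (eC θ y + eC θ z + bC θ y z))) -
          (bC θ x y * bC θ x y + (2 : ℚ) • (eC θ x * eC θ y)) -
          (bC θ x z * bC θ x z + (2 : ℚ) • (eC θ x * eC θ z)) := by
        simp only [two_smul]
        ring
      rw [a3, a1, h1, h1]
      simp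
    exact eq_neg_of_add_eq_zero_left ((smul_eq_zero.1 a2).resolve_left (by norm_num))
  have a1 := h2 (x + w) y z
  rw [bC_add_left hc, bC_add_left hc, eC_add] at a1
  have a2 := h2 x y z
  have a3 := h2 w y z
  linear_combination a1 - a2 - a3

variable (h : Setup θ φ d)
include h

lemma pE_eq : pE θ = midProj C θ := by
  have h2 := graph1 h.point (𝟙 E)
  rw [Category.comp_id, eC_sub h.cube] at h2
  have h3 : dg C E = eC θ (fst E E) + eC θ (snd E E) - bC θ (fst E E) (snd E E) := h2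
  rw [pE, midProj, h3]
  change -bC θ (fst E E) (snd E E) =
    eC θ (fst E E) + eC θ (snd E E) - bC θ (fst E E) (snd E E) - eC θ (fst E E) - eC θ (snd E E)
  abel

lemma hasDegree_theta : HasDegree C θ 1 := by
  intro Y
  have h1 := h.point Y
  constructor
  · change C.push (snd E Y) (C.up (fst E Y) θ) = _
    rw [← h1, one_smul]
    change C.push (snd E Y) (C.push (Obj.lift (0 : Y ⟶ E) (𝟙 Y)) 1) = 1
    rw [← C.push_comp, lift_snd, C.push_id]
  · have h2 : C.pull (snd Y E) θ = C.push (sw E Y) (C.pull (fst E Y) θ) := by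
      rw [← pull_iso C (sw Y E) (sw E Y) sw_sw sw_sw, ← C.pull_comp]
      congr 2
      simp [sw]
    rw [h2, ← C.push_comp]
    have h3 : sw E Y ≫ fst Y E = snd E Y := by simp [sw]
    rw [h3]
    change C.push (snd E Y) (C.up (fst E Y) θ) = _
    rw [← h1, one_smul]
    change C.push (snd E Y) (C.push (Obj.lift (0 : Y ⟶ E) (𝟙 Y)) 1) = 1
    rw [← C.push_comp, lift_snd, C.push_id]

lemma pE_idem : C.comp (pE θ) (pE θ) = pE θ := by
  rw [pE_eq h]
  exact mid_idem h.dim_eq h.deg (hasDegree_theta h)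

/-- The complex multiplication as a correspondence. -/
noncomputable def uE (C : TheoryData.{u, v, 0} 𝒱 ℚ) [IsChowProj C] (θ : C.A E) (φ : E ⟶ E) :
    C.A (E.prod E) := C.pull (prodMap (𝟙 E) φ) (pE θ)

omit h in
lemma vl_uE (x y : W ⟶ E) : vl C (uE C θ φ) x y = -bC θ x (y ≫ φ) := by
  rw [uE, vl_pull, Category.comp_id, vl_pE]

lemma vl_uE' (x y : W ⟶ E) : vl C (uE C θ φ) x y = bC θ (x ≫ φ) y := by
  rw [vl_uE, ← h.bC_u]

lemma comp_pE_uE : C.comp (pE θ) (uE C θ φ) = uE C θ φ := by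
  rw [uE, ← pull_comp_right, pE_idem h]

lemma uE_eq : uE C θ φ = -C.pull (prodMap φ (𝟙 E)) (pE θ) := by
  apply ext_vl
  intro W x y
  rw [vl_uE' h, vl_neg, vl_pull, Category.comp_id, vl_pE, neg_neg]

lemma comp_uE_pE : C.comp (uE C θ φ) (pE θ) = uE C θ φ := by
  have h1 : C.comp (-C.pull (prodMap φ (𝟙 E)) (pE θ)) (pE θ) =
      -C.pull (prodMap φ (𝟙 E)) (pE θ) := by
    have h2 := pull_comp_left φ (pE θ) (pE θ)
    rw [pE_idem h] at h2
    rw [← neg_one_smul ℚ, smul_comp1, ← h2]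
  rw [← uE_eq h] at h1
  exact h1

lemma comp_uE_uE : C.comp (uE C θ φ) (uE C θ φ) = -((d : ℚ) • pE θ) := by
  have h1 : C.comp (uE C θ φ) (uE C θ φ) = C.pull (prodMap (𝟙 E) φ) (uE C θ φ) := by
    conv_lhs => rw [show uE C θ φ = C.pull (prodMap (𝟙 E) φ) (pE θ) from rfl]
    rw [← pull_comp_right]
    change C.pull (prodMap (𝟙 E) φ) (C.comp (uE C θ φ) (pE θ)) = _
    rw [comp_uE_pE h]
  rw [h1]
  apply ext_vl
  intro W x y
  rw [vl_pull, Category.comp_id, vl_uE, h.comp_uu, vl_neg, vl_smul, vl_pE, bC_neg_right h.cube,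
    bC_zsmul_right h.cube, ← Int.cast_smul_eq_zsmul ℚ, Int.cast_natCast, neg_neg, smul_neg,
    neg_neg]

/-- **Elliptic curves with complex multiplication.** -/
theorem isCMMotive : IsCMMotive C E (pE θ) (uE C θ φ)
    (Polynomial.X ^ 2 + Polynomial.C (d : ℚ) : Polynomial ℚ) := by
  have hnd : (Polynomial.X ^ 2 + Polynomial.C (d : ℚ) : Polynomial ℚ).natDegree = 2 :=
    Polynomial.natDegree_X_pow_add_C
  have hc0 : (Polynomial.X ^ 2 + Polynomial.C (d : ℚ) : Polynomial ℚ).coeff 0 = (d : ℚ) := by simp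
  have hc1 : (Polynomial.X ^ 2 + Polynomial.C (d : ℚ) : Polynomial ℚ).coeff 1 = 0 := by
    simp [Polynomial.coeff_X_pow]
  have hc2 : (Polynomial.X ^ 2 + Polynomial.C (d : ℚ) : Polynomial ℚ).coeff 2 = 1 := by
    simp
  have hpd : C.Deg 1 (pE θ) := Submodule.neg_mem _ (R904.CM.bC_deg h.deg _ _)
  refine ⟨h.dim_eq, hpd, C.pull_mem _ hpd, pE_idem h, comp_pE_uE h, comp_uE_pE h, ?_, ?_, ?_⟩
  · have hd : (d : ℚ) ≠ 0 := h.ne
    have h1 : (Polynomial.X ^ 2 + Polynomial.C (d : ℚ) : Polynomial ℚ) =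
        Polynomial.X ^ 2 - Polynomial.C (-(d : ℚ)) := by
      rw [map_neg, sub_neg_eq_add]
    rw [h1]
    exact Polynomial.separable_X_pow_sub_C _ (by norm_num) (neg_ne_zero.2 hd)
  · rw [hnd, Finset.sum_range_succ, Finset.sum_range_succ, Finset.sum_range_one, hc0, hc1, hc2]
    change (d : ℚ) • pE θ + (0 : ℚ) • C.comp (pE θ) (uE C θ φ) +
      (1 : ℚ) • C.comp (C.comp (pE θ) (uE C θ φ)) (uE C θ φ) = 0
    rw [comp_pE_uE h, comp_uE_uE h]
    simp
  · intro W x₁ y₁ x₂ y₂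
    have h1 : ∀ x₁ y₁ x₂ y₂ : W ⟶ E, diagonal C (pE θ) (uE C θ φ)
        (Polynomial.X ^ 2 + Polynomial.C (d : ℚ) : Polynomial ℚ) x₁ y₁ x₂ y₂ =
        vl C (pE θ) x₁ y₁ * vl C (uE C θ φ) x₂ y₂ + vl C (uE C θ φ) x₁ y₁ * vl C (pE θ) x₂ y₂ := by
      intro x₁ y₁ x₂ y₂
      rw [diagonal, hnd, Finset.sum_range_succ, Finset.sum_range_succ, Finset.sum_range_one, hc0,
        hc1, hc2, Finset.sum_range_zero, smul_zero, zero_smul, one_smul, zero_add, zero_add,
        Finset.sum_range_succ, Finset.sum_range_one]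
      change vl C (pE θ) x₁ y₁ * vl C (C.comp (pE θ) (uE C θ φ)) x₂ y₂ +
          vl C (C.comp (pE θ) (uE C θ φ)) x₁ y₁ * vl C (pE θ) x₂ y₂ = _
      rw [comp_pE_uE h]
    rw [h1, h1]
    simp only [vl_pE, vl_uE' h]
    have a1 := three_terms h.dim_eq h.deg h.cube x₁ (x₂ ≫ φ) y₁ y₂
    have a2 := three_terms h.dim_eq h.deg h.cube (x₁ ≫ φ) x₂ y₁ y₂
    have a3 : bC θ (x₁ ≫ φ) x₂ = -bC θ x₁ (x₂ ≫ φ) := h.bC_u x₁ x₂
    rw [a3] at a2
    linear_combination -a1 - a2

end Pool.Agent.U191.CMN
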