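import Mathlib.LinearAlgebra.Lagrange
import Mathlib.FieldTheory.Separable
import Mathlib.Algebra.Polynomial.Basis
import Mathlib.Analysis.Complex.Polynomial.Basic
import Mathlib.LinearAlgebra.TensorProduct.Tower

/-!
# Spectral idempotents
-/

open Polynomial

namespace Pool.Agent.U191.CMN

/-- The complex roots. -/
noncomputable def rts (P : ℚ[X]) : Finset ℂ := (P.map (algebraMap ℚ ℂ)).roots.toFinset

lemma splits_map (P : ℚ[X]) : (P.map (algebraMap ℚ ℂ)).Splits := IsAlgClosed.splits _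

lemma card_rts {P : ℚ[X]} (h : P.Separable) : (rts P).card = P.natDegree := by
  have h1 : (P.map (algebraMap ℚ ℂ)).Separable := h.map
  rw [rts, Multiset.toFinset_card_of_nodup (nodup_roots h1),
    ← (splits_map P).natDegree_eq_card_roots, natDegree_map]

lemma map_ne {P : ℚ[X]} (h : P.Separable) : P.map (algebraMap ℚ ℂ) ≠ 0 := by
  have h1 : (P.map (algebraMap ℚ ℂ)).Separable := h.map
  exact h1.ne_zero

lemma mem_rts {P : ℚ[X]} (h : P.Separable) {α : ℂ} :
    α ∈ rts P ↔ (P.map (algebraMap ℚ ℂ)).eval α = 0 := by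
  rw [rts, Multiset.mem_toFinset, mem_roots (map_ne h), IsRoot.def]

lemma deriv_ne {P : ℚ[X]} (h : P.Separable) {α : ℂ} (hα : α ∈ rts P) :
    (P.map (algebraMap ℚ ℂ)).derivative.eval α ≠ 0 := by
  have h1 : (P.map (algebraMap ℚ ℂ)).Separable := h.map
  rw [mem_rts h] at hα
  obtain ⟨a, b, hab⟩ := h1
  intro h0
  have := congrArg (Polynomial.eval α) hab
  rw [eval_add, eval_mul, eval_mul, hα, h0] at this
  simp at this

/-- The idempotent polynomials. -/
noncomputable def ep (P : ℚ[X]) (α : ℂ) : ℂ[X] := Lagrange.basis (rts P) id α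

lemma sum_ep {P : ℚ[X]} (hne : (rts P).Nonempty) : ∑ α ∈ rts P, ep P α = 1 :=
  Lagrange.sum_basis (fun _ _ _ _ h => h) hne

lemma prod_rts {P : ℚ[X]} (h : P.Separable) : ∏ α ∈ rts P, (X - C α) =
    C ((P.map (algebraMap ℚ ℂ)).leadingCoeff)⁻¹ * P.map (algebraMap ℚ ℂ) := by
  have h1 : (P.map (algebraMap ℚ ℂ)).Separable := h.map
  have h2 := (splits_map P).eq_prod_roots
  have h3 : (∏ α ∈ rts P, (X - C α)) =
      ((P.map (algebraMap ℚ ℂ)).roots.map fun a => X - C a).prod := by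
    rw [rts, Finset.prod_multiset_map_count]
    refine Finset.prod_congr rfl fun α hα => ?_
    rw [Multiset.count_eq_one_of_mem (nodup_roots h1) (Multiset.mem_toFinset.1 hα), pow_one]
  rw [h3]
  nth_rw 3 [h2]
  rw [← mul_assoc, ← C_mul, inv_mul_cancel₀ (leadingCoeff_ne_zero.2 (map_ne h)), C_1, one_mul]

lemma sub_mul_ep {P : ℚ[X]} (h : P.Separable) {α : ℂ} (hα : α ∈ rts P) :
    ∃ c : ℂ, (X - C α) * ep P α = C c * P.map (algebraMap ℚ ℂ) := by
  classical
  have h1 : ep P α = C (∏ β ∈ (rts P).erase α, (α - β)⁻¹) *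
      ∏ β ∈ (rts P).erase α, (X - C β) := by
    rw [ep, Lagrange.basis, map_prod, ← Finset.prod_mul_distrib]
    refine Finset.prod_congr rfl fun β _ => ?_
    rfl
  refine ⟨(∏ β ∈ (rts P).erase α, (α - β)⁻¹) * ((P.map (algebraMap ℚ ℂ)).leadingCoeff)⁻¹, ?_⟩
  rw [h1, C_mul, mul_assoc (C _) (C _), ← prod_rts h, ← Finset.mul_prod_erase _ _ hα]
  ring

section ev

variable {A : Type*} [Ring A] [Algebra ℂ A]

/-- Polynomials in the non-unital sense: `t^n ↦ g n`. -/
noncomputable def ev (g : ℕ → A) : ℂ[X] →ₗ[ℂ] A := (basisMonomials ℂ).constr ℂ g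

lemma ev_X_pow (g : ℕ → A) (n : ℕ) : ev g (X ^ n) = g n := by
  have := (basisMonomials ℂ).constr_basis ℂ g n
  rw [coe_basisMonomials] at this
  rw [X_pow_eq_monomial]
  exact this

lemma ev_one (g : ℕ → A) : ev g 1 = g 0 := by
  rw [← ev_X_pow g 0, pow_zero]

lemma ev_eq (g : ℕ → A) (Q : ℂ[X]) : ev g Q = ∑ n ∈ Finset.range (Q.natDegree + 1), Q.coeff n • g n := by
  conv_lhs => rw [Q.as_sum_range_C_mul_X_pow, map_sum]
  refine Finset.sum_congr rfl fun n _ => ?_
  rw [← smul_eq_C_mul, map_smul, ev_X_pow]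

lemma ev_mul {g : ℕ → A} (hg : ∀ m n, g m * g n = g (m + n)) (Q R : ℂ[X]) :
    ev g (Q * R) = ev g Q * ev g R := by
  induction Q using Polynomial.induction_on' with
  | add Q Q' h h' => rw [add_mul, map_add, map_add, add_mul, h, h']
  | monomial n a =>
    induction R using Polynomial.induction_on' with
    | add R R' h h' => rw [mul_add, map_add, map_add, mul_add, h, h']
    | monomial m b =>
      rw [← C_mul_X_pow_eq_monomial, ← C_mul_X_pow_eq_monomial, ← smul_eq_C_mul, ← smul_eq_C_mul,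
        smul_mul_smul_comm, ← pow_add, map_smul, map_smul, map_smul, ev_X_pow, ev_X_pow, ev_X_pow,
        smul_mul_smul_comm, hg]

variable {g : ℕ → A} (hg : ∀ m n, g m * g n = g (m + n)) {P : ℚ[X]} (hP : P.Separable)
  (hroot : ev g (P.map (algebraMap ℚ ℂ)) = 0)

/-- The spectral idempotents. -/
noncomputable def ei (g : ℕ → A) (P : ℚ[X]) (α : ℂ) : A := ev g (ep P α)

include hg hP hroot

lemma mul_ei (n : ℕ) {α : ℂ} (hα : α ∈ rts P) : g n * ei g P α = α ^ n • ei g P α := by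
  obtain ⟨c, hc⟩ := sub_mul_ep hP hα
  obtain ⟨R, hR⟩ : (X - C α) ∣ (X ^ n - C (α ^ n)) := by
    rw [C_pow]
    exact sub_dvd_pow_sub_pow _ _ _
  rw [← sub_eq_zero, ← ev_X_pow g n, ei, ← ev_mul hg, ← map_smul, ← map_sub, smul_eq_C_mul,
    ← sub_mul, hR, mul_comm (X - C α) R, mul_assoc, hc, ← mul_assoc, ev_mul hg, hroot, mul_zero]

lemma ei_mul (n : ℕ) {α : ℂ} (hα : α ∈ rts P) : ei g P α * g n = α ^ n • ei g P α := by
  rw [← mul_ei hg hP hroot n hα, ← ev_X_pow g n, ei, ← ev_mul hg, ← ev_mul hg, mul_comm]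

omit hg in
lemma sum_ei : ∑ α ∈ rts P, ei g P α = g 0 := by
  rcases (rts P).eq_empty_or_nonempty with h0 | h0
  · rw [h0, Finset.sum_empty]
    have h1 : P.natDegree = 0 := by rw [← card_rts hP, h0, Finset.card_empty]
    have h2 : P.map (algebraMap ℚ ℂ) = C ((P.map (algebraMap ℚ ℂ)).coeff 0) :=
      eq_C_of_natDegree_eq_zero (by rw [natDegree_map, h1])
    have h3 : (P.map (algebraMap ℚ ℂ)).coeff 0 ≠ 0 := by
      intro h4
      rw [h4, C_0] at h2
      exact map_ne hP h2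
    rw [h2, ← mul_one (C _), ← smul_eq_C_mul, map_smul, ev_one] at hroot
    exact ((smul_eq_zero.1 hroot).resolve_left h3).symm
  · simp only [ei]
    rw [← map_sum, sum_ep h0, ev_one]

end ev

/-- The value at `(α, α)` of the difference quotient of a polynomial is the derivative. -/
lemma deriv_eq (P : ℚ[X]) (α : ℂ) : ∑ n ∈ Finset.range (P.natDegree + 1),
    ((P.coeff n : ℚ) : ℂ) * ∑ i ∈ Finset.range n, α ^ (n - 1 - i) * α ^ i =
      (P.map (algebraMap ℚ ℂ)).derivative.eval α := by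
  rw [derivative_eval, sum_over_range]
  · rw [natDegree_map]
    refine Finset.sum_congr rfl fun n _ => ?_
    rw [coeff_map]
    have h1 : ∑ i ∈ Finset.range n, α ^ (n - 1 - i) * α ^ i = n * α ^ (n - 1) := by
      rw [Finset.sum_congr rfl (g := fun _ => α ^ (n - 1)) (fun i hi => ?_), Finset.sum_const,
        Finset.card_range, nsmul_eq_mul]
      rw [← pow_add]
      congr 1
      have := Finset.mem_range.1 hi
      omega
    rw [h1]
    simp only [eq_ratCast]
    ring
  · intro n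
    simp

end Pool.Agent.U191.CMN
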