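import Pool.Agent.R904.CM.Defs
import Pool.Agent.TH133.Tens

/-!
# Parts of the motives of curves with complex multiplication: definitions
-/

open CategoryTheory AlgebraicGeometry

universe u v w

namespace Pool.Agent.U191.CMN

open Pool.Agent.H914 Pool.Agent.H914.VarClass Pool.Agent.H914.VarClass.Obj Pool.Agent.W492.BB
  Pool.Agent.W550.Corr Pool.Agent.TH133 Pool.Agent.Y152.AS

variable {k : Type u} [Field k] {𝒱 : VarClass k}

/-- The powers `p ∘ u ∘ ⋯ ∘ u` of the self-correspondence `u` of the motive `(X, p)`. -/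
noncomputable def pw (C : TheoryData.{u, v, 0} 𝒱 ℚ) {X : 𝒱.Obj} (p u : C.A (X.prod X)) :
    ℕ → C.A (X.prod X)
  | 0 => p
  | n + 1 => C.comp (pw C p u n) u

/-- The class `∑_n a_n ∑_{i + j = n - 1} u^i(x₁, y₁) · u^j(x₂, y₂)` on `W`, for points `x₁`, `y₁`,
`x₂`, `y₂` of `X` with values in `W` and the polynomial `P = ∑ a_n t^n`. The polynomial
`(P(s) - P(t)) / (s - t) = ∑_n a_n ∑_{i + j = n - 1} s^i t^j` is, up to the factor `P'(t)`, which is
invertible, the idempotent of `ℚ[s, t] / (P(s), P(t))` which describes tensor products over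
`ℚ[t] / P(t)`. -/
noncomputable def diagonal (C : TheoryData.{u, v, 0} 𝒱 ℚ) {X W : 𝒱.Obj} (p u : C.A (X.prod X))
    (P : Polynomial ℚ) (x₁ y₁ x₂ y₂ : W ⟶ X) : C.A W :=
  ∑ n ∈ Finset.range (P.natDegree + 1), P.coeff n • ∑ i ∈ Finset.range n,
    C.mul (C.up (Obj.lift x₁ y₁) (pw C p u i)) (C.up (Obj.lift x₂ y₂) (pw C p u (n - 1 - i)))

/-- `M = (X, p)` is a part of the motive `h^1(X)` of a curve `X`, given by a projector `p`, and `u` is
a self-correspondence of `M` with `P(u) = 0` for a separable polynomial `P`, such that `M` has rank one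
over `ℚ[u] ≅ ℚ[t] / P(t)`, so that `M` has complex multiplication: the symmetric square of `M` over
`ℚ[u]` is zero. (By the theorem of Kimura the last property holds if `p H^1(X)` has dimension
`deg P` and is a faithful module over `ℚ[t] / P(t)`: the diagonal `ℚ[u]`-bilinear part of `M ⊗ M` is a
tensor square of a motive of odd weight and rank one, so that its symmetric part is homologically
trivial, and is zero because `M` is finite-dimensional.) -/
structure IsCMMotive (C : TheoryData.{u, v, 0} 𝒱 ℚ) (X : 𝒱.Obj) (p u : C.A (X.prod X))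
    (P : Polynomial ℚ) : Prop where
  dim_eq : X.dim = 1
  deg_p : C.Deg 1 p
  deg_u : C.Deg 1 u
  idem : C.comp p p = p
  comp_left : C.comp p u = u
  comp_right : C.comp u p = u
  separable : P.Separable
  root : ∑ n ∈ Finset.range (P.natDegree + 1), P.coeff n • pw C p u n = 0
  kimura : ∀ (W : 𝒱.Obj) (x₁ y₁ x₂ y₂ : W ⟶ X),
    diagonal C p u P x₁ y₁ x₂ y₂ + diagonal C p u P x₁ y₂ x₂ y₁ = 0

/-- The surface `S` is dominated by finitely many motives `M_j ⊗ h(Y)`, where the `Y` are curves and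
the `M_j = (X j, p j)` belong to a given family: there are correspondences
`b l ∈ CH^2((X (j l) × Y l) × S)_ℚ` and rational numbers `r l` such that
`∑_l r l (b l)_* (p (j l) × id)_* (ᵗb l)_*` is the identity on the Albanese kernel of `S`. -/
def IsDominatedByMotives (C : TheoryData.{u, v, 0} 𝒱 ℚ) {J : Type} (X : J → 𝒱.Obj)
    (p : ∀ j, C.A ((X j).prod (X j))) (S : 𝒱.Obj) : Prop :=
  S.dim = 2 ∧ ∃ (L : Type) (_ : Fintype L) (j : L → J) (Y : L → 𝒱.Obj)
    (b : ∀ l, C.A (((X (j l)).prod (Y l)).prod S)) (r : L → ℚ),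
    (∀ l, (Y l).dim = 1) ∧ (∀ l, C.Deg 2 (b l)) ∧
    ∀ α : C.A S, InAlbKer C α → ∑ l, r l • C.act (b l)
      (C.act (tens C (p (j l)) (dg C (Y l))) (C.act (tp C (b l)) α)) = α

/-- `IsComposition H 𝒟 n Z`: the correspondence `Z` from `S` to `T` is a composition
`S → S_1 → ⋯ → S_{n-1} → T` of `n` correspondences of degree zero between surfaces of the class `𝒟`
each of which is homologically equivalent to a degenerate correspondence. -/
inductive IsComposition {C : TheoryData.{u, v, 0} 𝒱 ℚ} {K : Type w} [Field K]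
    (H : WeilTheoryData.{u, v, w} C K) (𝒟 : 𝒱.Obj → Prop) :
    ℕ → ∀ {S T : 𝒱.Obj}, C.A (S.prod T) → Prop
  | one {S T : 𝒱.Obj} (Z : C.A (S.prod T)) (hS : 𝒟 S) (hT : 𝒟 T) (hZ : C.Deg 2 Z)
      (hd : IsHomDegenerate H Z) : IsComposition H 𝒟 1 Z
  | comp {n : ℕ} {S T U : 𝒱.Obj} (Z : C.A (S.prod T)) (W : C.A (T.prod U)) (hS : 𝒟 S)
      (hZ : C.Deg 2 Z) (hd : IsHomDegenerate H Z) (hW : IsComposition H 𝒟 n W) :
      IsComposition H 𝒟 (n + 1) (C.comp Z W)

end Pool.Agent.U191.CMN
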