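import Pool.Agent.U191.CMN.Defs

/-!
# Surfaces with complex multiplication on their transcendental part: definitions
-/

open CategoryTheory AlgebraicGeometry

universe u v w

namespace Pool.Agent.U191.CMN

open Pool.Agent.H914 Pool.Agent.H914.VarClass Pool.Agent.H914.VarClass.Obj Pool.Agent.W492.BB
  Pool.Agent.W550.Corr Pool.Agent.TH133 Pool.Agent.Y152.AS

variable {k : Type u} [Field k] {𝒱 : VarClass k}

/-- The surface `S` with the self-correspondence `uS` of degree zero is dominated by finitely many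
motives `M ⊗ h(Y l)`, where `M = (X, p)` and the `Y l` are curves, and `uS` corresponds to the
self-correspondence `u` of `M`: there are correspondences `b l ∈ CH^2((X × Y l) × S)_ℚ` and rational
numbers `r l` such that `∑_l r l (b l)_* (p × id)_* (ᵗb l)_*` is the identity on the Albanese kernel of
`S`, `uS_* (b l)_* (p × id)_* = (b l)_* (u × id)_*` on the Albanese kernel of `X × Y l`, and
`(p × id)_* (ᵗb l)_* uS_* = (u × id)_* (ᵗb l)_*` on the Albanese kernel of `S`. (Example: `uS` and `u`
are given by automorphisms of `S` and `X`, and the `b l` are the graphs of equivariant rational maps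
`X × Y l ⇢ S`.) -/
structure IsDominatedEquivariantly (C : TheoryData.{u, v, 0} 𝒱 ℚ) {X : 𝒱.Obj}
    (p u : C.A (X.prod X)) (S : 𝒱.Obj) (uS : C.A (S.prod S)) : Prop where
  dim_eq : S.dim = 2
  deg : C.Deg 2 uS
  dominated : ∃ (L : Type) (_ : Fintype L) (Y : L → 𝒱.Obj) (b : ∀ l, C.A ((X.prod (Y l)).prod S))
    (r : L → ℚ), (∀ l, (Y l).dim = 1) ∧ (∀ l, C.Deg 2 (b l)) ∧
    (∀ α : C.A S, InAlbKer C α → ∑ l, r l • C.act (b l)
      (C.act (tens C p (dg C (Y l))) (C.act (tp C (b l)) α)) = α) ∧
    (∀ (l : L) (α : C.A (X.prod (Y l))), InAlbKer C α →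
      C.act uS (C.act (b l) (C.act (tens C p (dg C (Y l))) α)) =
        C.act (b l) (C.act (tens C u (dg C (Y l))) α)) ∧
    ∀ (l : L) (α : C.A S), InAlbKer C α →
      C.act (tens C p (dg C (Y l))) (C.act (tp C (b l)) (C.act uS α)) =
        C.act (tens C u (dg C (Y l))) (C.act (tp C (b l)) α)

end Pool.Agent.U191.CMN
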