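import Pool.Agent.U191.CMN.Main
import Pool.Agent.U191.CMN.EqDefs

/-!
# Bloch's conjecture for correspondences which commute with the complex multiplication
-/

open CategoryTheory AlgebraicGeometry

universe u v w

namespace Pool.Agent.U191.CMN

open Pool.Agent.H914 Pool.Agent.H914.VarClass Pool.Agent.H914.VarClass.Obj Pool.Agent.W492.BB
  Pool.Agent.W550.Corr Pool.Agent.TH133 Pool.Agent.Y152.AS Pool.Agent.TH829.Kim
open Pool.Agent.R904.CM (PicardOfProducts)
open scoped TensorProduct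

set_option linter.unusedSectionVars false

section abstr

variable {Ob 𝒴 J : Type*} {V : Ob → Type*} [∀ a, AddCommGroup (V a)] [∀ a, Module ℚ (V a)]
  {R N : ∀ a b, (V a →ₗ[ℚ] V b) → Prop} {o : J → 𝒴 → Ob}
  {g : ∀ j Y, ℕ → Module.End ℚ (V (o j Y))} {P : J → Polynomial ℚ}

/-- Maps of the class `N` which commute with `g 1` are zero. -/
lemma comm_zero (S : Sys V R N o g P) (j : J) (Y Y' : 𝒴) {T : V (o j Y) →ₗ[ℚ] V (o j Y')}
    (hT : N _ _ T) (h : g j Y' 1 ∘ₗ T ∘ₗ g j Y 0 = g j Y' 0 ∘ₗ T ∘ₗ g j Y 1) :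
    g j Y' 0 ∘ₗ T ∘ₗ g j Y 0 = 0 := by
  rw [← bc_zero_iff]
  apply LinearMap.ext
  intro v
  rw [bc_comp_apply, bc_comp_apply, ← sum_eN S j Y', ← sum_eN S j Y v, LinearMap.zero_apply]
  refine Finset.sum_eq_zero fun α hα => ?_
  rw [map_sum, map_sum]
  refine Finset.sum_eq_zero fun β hβ => ?_
  by_cases hαβ : α = β
  · subst hαβ
    exact diag S j Y Y' hT hα v
  · have h1 := congrArg (fun f => eN g P j Y' α (bc f (eN g P j Y β v))) h
    have h2 : eN g P j Y' α (bc (g j Y' 1 ∘ₗ T ∘ₗ g j Y 0) (eN g P j Y β v)) =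
        α • eN g P j Y' α (bc T (eN g P j Y β v)) := by
      rw [bc_comp_apply, bc_comp_apply]
      have h3 : bc (g j Y 0) (eN g P j Y β v) = β ^ 0 • eN g P j Y β v :=
        LinearMap.congr_fun (mul_ei (gmul S j Y) (S.sep j) (groot S j Y) 0 hβ) v
      have h4 : ∀ w, eN g P j Y' α (bc (g j Y' 1) w) = α ^ 1 • eN g P j Y' α w := fun w =>
        LinearMap.congr_fun (ei_mul (gmul S j Y') (S.sep j) (groot S j Y') 1 hα) w
      rw [h3, pow_zero, one_smul, h4, pow_one]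
    have h5 : eN g P j Y' α (bc (g j Y' 0 ∘ₗ T ∘ₗ g j Y 1) (eN g P j Y β v)) =
        β • eN g P j Y' α (bc T (eN g P j Y β v)) := by
      rw [bc_comp_apply, bc_comp_apply]
      have h3 : bc (g j Y 1) (eN g P j Y β v) = β ^ 1 • eN g P j Y β v :=
        LinearMap.congr_fun (mul_ei (gmul S j Y) (S.sep j) (groot S j Y) 1 hβ) v
      have h4 : ∀ w, eN g P j Y' α (bc (g j Y' 0) w) = α ^ 0 • eN g P j Y' α w := fun w =>
        LinearMap.congr_fun (ei_mul (gmul S j Y') (S.sep j) (groot S j Y') 0 hα) w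
      rw [h3, pow_one, map_smul, map_smul, map_smul, h4, pow_zero, one_smul]
    have h6 : (α - β) • eN g P j Y' α (bc T (eN g P j Y β v)) = 0 := by
      rw [sub_smul, ← h2, ← h5, sub_eq_zero]
      exact h1
    exact (smul_eq_zero.1 h6).resolve_left (sub_ne_zero.2 hαβ)

end abstr

variable {k : Type u} [Field k] {𝒱 : VarClass k} {C : TheoryData.{u, v, 0} 𝒱 ℚ}
  [hC : IsChowProj C] {K : Type w} [Field K] {H : WeilTheoryData.{u, v, w} C K}
  [hH : IsWeilProj H] {X : 𝒱.Obj} {p u : C.A (X.prod X)} {P : Polynomial ℚ}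

/-- Homologically trivial correspondences between products which commute with the
multiplication. -/
lemma comm_kill (hM : IsCMMotive C X p u P) (hpic : PicardOfProducts H) {Y Y' : 𝒱.Obj}
    (hY : Y.dim = 1) (hY' : Y'.dim = 1) {Γ : C.A ((X.prod Y).prod (X.prod Y'))}
    (hΓ : Γ ∈ C.gr ((X.prod Y).prod (X.prod Y')) 2) (h0 : H.cl Γ = 0)
    (hc : ∀ α ∈ albKer C (X.prod Y), C.act (tens C u (dg C Y')) (C.act Γ
      (C.act (tens C p (dg C Y)) α)) = C.act (tens C p (dg C Y')) (C.act Γ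
      (C.act (tens C u (dg C Y)) α))) :
    ∀ α ∈ albKer C (X.prod Y), C.act (tens C p (dg C Y')) (C.act Γ
      (C.act (tens C p (dg C Y)) α)) = 0 := by
  intro α hα
  have hu : pw C p u 1 = u := hM.comp_left
  have h1 := comm_zero (J := Unit) (sys (fun _ => hM) hpic) () ⟨Y, hY⟩ ⟨Y', hY'⟩
    (T := ro _ _ ⟨Γ, hΓ⟩) ⟨Γ, hΓ, h0, rfl⟩ (by
      apply LinearMap.ext
      intro α
      apply Subtype.ext
      change C.act (tens C (pw C p u 1) (dg C Y')) (C.act Γ (C.act (tens C p (dg C Y)) α.1)) =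
        C.act (tens C p (dg C Y')) (C.act Γ (C.act (tens C (pw C p u 1) (dg C Y)) α.1))
      rw [hu]
      exact hc α.1 α.2)
  exact congrArg Subtype.val (LinearMap.congr_fun h1 ⟨α, hα⟩)

/-- **Bloch's conjecture for correspondences which commute with the complex multiplication.** -/
theorem eq_main (hM : IsCMMotive C X p u P) (hpic : PicardOfProducts H) {S T : 𝒱.Obj}
    {uS : C.A (S.prod S)} {uT : C.A (T.prod T)} (hS : IsDominatedEquivariantly C p u S uS)
    (hT : IsDominatedEquivariantly C p u T uT) {Z : C.A (S.prod T)} (hZ : C.Deg 2 Z)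
    (hd : IsHomDegenerate H Z)
    (hc : ∀ α, InAlbKer C α → C.act Z (C.act uS α) = C.act uT (C.act Z α)) :
    KillsAlbKer C Z := by
  obtain ⟨hSd, huS, L, _, Y, b, r, hY, hb, hid, hS1, hS2⟩ := hS
  obtain ⟨hTd, huT, L', _, Y', b', r', hY', hb', hid', hT1, hT2⟩ := hT
  have hd2 : ∀ l, (X.prod (Y l)).dim = 2 := fun l => by rw [dim_prod, hM.dim_eq, hY l]
  have hd2' : ∀ l, (X.prod (Y' l)).dim = 2 := fun l => by rw [dim_prod, hM.dim_eq, hY' l]
  have hmp : ∀ Y : 𝒱.Obj, Y.dim = 1 →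
      tens C p (dg C Y) ∈ C.gr ((X.prod Y).prod (X.prod Y)) 2 := fun Y hY =>
    tens_pw_mem (J := Unit) (fun _ => hM) () ⟨Y, hY⟩ 0
  -- the homologically trivial representative
  obtain ⟨W, hW, hZW⟩ := hd.homDeg
  have hm : Z - W ∈ C.gr (S.prod T) 2 := Submodule.sub_mem _ hZ (degenerate_le hSd hW)
  have hcl : H.cl (Z - W) = 0 := by rw [map_sub, hZW, sub_self]
  have hact : ∀ α ∈ albKer C S, C.act (Z - W) α = C.act Z α := fun α hα => by
    rw [C.act_sub, degenerate_act hSd hW hα, sub_zero]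
  intro β hβ
  have hβ' := inAlbKer_iff.1 hβ
  have hZβ : C.act Z β ∈ albKer C T := act_albKer hSd hTd hZ hβ'
  rw [← hid' _ (inAlbKer_iff.2 hZβ)]
  refine Finset.sum_eq_zero fun l' _ => ?_
  have h1 : C.act (tens C p (dg C (Y' l'))) (C.act (tp C (b' l')) (C.act Z β)) = 0 := by
    conv_lhs => rw [← hid β hβ]
    rw [act_map_sum, act_map_sum, act_map_sum]
    refine Finset.sum_eq_zero fun l _ => ?_
    rw [act_map_smul, act_map_smul, act_map_smul]
    have h2 : C.act (tens C p (dg C (Y' l'))) (C.act (tp C (b' l')) (C.act Z (C.act (b l)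
        (C.act (tens C p (dg C (Y l))) (C.act (tp C (b l)) β))))) = 0 := by
      set Γ := C.comp (b l) (C.comp (Z - W) (tp C (b' l'))) with hΓ
      have hΓm : Γ ∈ C.gr ((X.prod (Y l)).prod (X.prod (Y' l'))) 2 :=
        comp_mem2 hSd (hd2 l) (hb l) (comp_mem2 hTd hSd hm (tp_mem C (hb' l')))
      have hΓ0 : H.cl Γ = 0 := by rw [hΓ, cl_comp, cl_comp, hcl, zero_comp, comp_zero]
      have hΓa : ∀ α ∈ albKer C (X.prod (Y l)), C.act Γ α =
          C.act (tp C (b' l')) (C.act Z (C.act (b l) α)) := fun α hα => by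
        rw [hΓ, C.act_comp, C.act_comp, hact _ (act_albKer (hd2 l) hSd (hb l) hα)]
      have hmu : ∀ Y : 𝒱.Obj, Y.dim = 1 →
          tens C u (dg C Y) ∈ C.gr ((X.prod Y).prod (X.prod Y)) 2 := fun Y hY => by
        have := tens_pw_mem (J := Unit) (fun _ => hM) () ⟨Y, hY⟩ 1
        have hu : pw C p u 1 = u := hM.comp_left
        rwa [hu] at this
      have h3 := comm_kill hM hpic (hY l) (hY' l') hΓm hΓ0 (fun α hα => by
        have k1 := act_albKer (hd2 l) (hd2 l) (hmp _ (hY l)) hα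
        have k2 := act_albKer (hd2 l) (hd2 l) (hmu _ (hY l)) hα
        have k3 := act_albKer (hd2 l) hSd (hb l) k1
        rw [hΓa _ k1, hΓa _ k2, ← hT2 l' _ (inAlbKer_iff.2 (act_albKer hSd hTd hZ k3)),
          ← hc _ (inAlbKer_iff.2 k3), hS1 l α (inAlbKer_iff.2 hα)])
        (C.act (tp C (b l)) β) (act_albKer hSd (hd2 l) (tp_mem C (hb l)) hβ')
      rw [hΓa _ (act_albKer (hd2 l) (hd2 l) (hmp _ (hY l))
        (act_albKer hSd (hd2 l) (tp_mem C (hb l)) hβ'))] at h3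
      exact h3
    rw [h2, smul_zero]
  rw [h1, C.act_map_zero, smul_zero]

end Pool.Agent.U191.CMN
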