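import Pool.Agent.U191.CMN.Defs
import Pool.Agent.R904.CM.Main

/-!
# The diagonal part of a homologically trivial correspondence
-/

open CategoryTheory AlgebraicGeometry

universe u v w

namespace Pool.Agent.U191.CMN

open Pool.Agent.H914 Pool.Agent.H914.VarClass Pool.Agent.H914.VarClass.Obj Pool.Agent.W492.BB
  Pool.Agent.W550.Corr Pool.Agent.TH133 Pool.Agent.Y152.AS Pool.Agent.TH829.Kim
open Pool.Agent.R904.Voi (vl pull_vl vl_univ vl_mem vl_add vl_sub vl_smul vl_sum vl_pull vl_fst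
  vl_snd vl_tp vl_comp pull_act ext_vl smul_comp1 comp_smul1)
open Pool.Agent.R904.CM (vl_tens vl_neg PicardOfProducts)

set_option linter.unusedSectionVars false

variable {k : Type u} [Field k] {𝒱 : VarClass k} {C : TheoryData.{u, v, 0} 𝒱 ℚ}
  [hC : IsChowProj C] {K : Type w} [Field K] {H : WeilTheoryData.{u, v, w} C K}
  [hH : IsWeilProj H] {W X Y Y' R B S T V : 𝒱.Obj}

lemma exists_lift' (q : W ⟶ X.prod Y) : ∃ (x : W ⟶ X) (t : W ⟶ Y), q = Obj.lift x t :=
  ⟨q ≫ fst X Y, q ≫ snd X Y, by apply prod_ext <;> simp⟩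

/-- Classes which act as zero on the Albanese kernel, first kind. -/
lemma kill_left' {T : 𝒱.Obj} (hd : S.dim = 2) (g : C.A (S.prod T))
    {a : C.A S} (ha : a ∈ C.gr S 1) {α : C.A S}
    (hα : α ∈ albKer C S) : C.act (g * C.pull (fst S T) a) α = 0 := by
  have h1 : a * α = 0 := by
    have h2 := hα.1
    refine hC.gr_top _ _ _ (C.mul_mem ha h2) ?_
    rw [hd]
    norm_num
  rw [C.act_apply, mul_assoc, ← map_mul, h1, map_zero, mul_zero, map_zero]

/-- Classes which act as zero on the Albanese kernel, second kind. -/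
lemma kill_right' {T : 𝒱.Obj} {g : C.A (S.prod T)} (hg : g ∈ C.gr (S.prod T) 1)
    (b : C.A T) {α : C.A S} (hα : α ∈ albKer C S) :
    C.act (g * C.pull (snd S T) b) α = 0 := by
  have h1 := hα.2 T g hg
  rw [C.act_apply] at h1
  rw [C.act_apply, ch_comm C g, mul_assoc, C.proj_left, h1, mul_zero]

lemma kill_prod' (hd : (X.prod Y).dim = 2) {c : C.A (X.prod X)}
    (hc : c ∈ C.gr (X.prod X) 1) {a : C.A Y} (ha : a ∈ C.gr Y 1) (b : C.A Y')
    {α : C.A (X.prod Y)} (hα : α ∈ albKer C (X.prod Y)) :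
    C.act (tens C c (C.pull (fst Y Y') a + C.pull (snd Y Y') b)) α = 0 := by
  have e1 : tens C c (C.pull (fst Y Y') a + C.pull (snd Y Y') b) =
      C.pull (prodMap (fst X Y) (fst X Y')) c *
        C.pull (fst (X.prod Y) (X.prod Y')) (C.pull (snd X Y) a) +
      C.pull (prodMap (fst X Y) (fst X Y')) c *
        C.pull (snd (X.prod Y) (X.prod Y')) (C.pull (snd X Y') b) := by
    rw [tens, map_add, mul_add, ← C.pull_comp, ← C.pull_comp, ← C.pull_comp, ← C.pull_comp,
      prodMap_fst, prodMap_snd]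
  rw [e1, C.act_add, kill_left' hd _ (C.pull_mem _ ha) hα,
    kill_right' (C.pull_mem _ hc) _ hα, add_zero]

section motive

variable {p u : C.A (X.prod X)} {P : Polynomial ℚ} (h : IsCMMotive C X p u P)
include h

lemma IsCMMotive.pw_mem (n : ℕ) : pw C p u n ∈ C.gr (X.prod X) 1 := by
  have hd : (X.dim : ℤ) = 1 := by rw [h.dim_eq]; rfl
  induction n with
  | zero => exact h.deg_p
  | succ n ih =>
    have := comp_mem0 C (Γ := pw C p u n) (Δ := u) (by rw [hd]; exact ih)
      (by rw [hd]; exact h.deg_u)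
    rw [hd] at this
    exact this

lemma IsCMMotive.pw_comp (n : ℕ) : C.comp (pw C p u n) p = pw C p u n := by
  cases n with
  | zero => exact h.idem
  | succ n =>
    change C.comp (C.comp (pw C p u n) u) p = C.comp (pw C p u n) u
    rw [comp_assoc, h.comp_right]

lemma IsCMMotive.pw_add (m n : ℕ) :
    C.comp (pw C p u m) (pw C p u n) = pw C p u (m + n) := by
  induction n with
  | zero => exact h.pw_comp m
  | succ n ih =>
    change C.comp (pw C p u m) (C.comp (pw C p u n) u) = C.comp (pw C p u (m + n)) u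
    rw [← comp_assoc, ih]

end motive

lemma vl_dg_symm (x y : W ⟶ X) : vl C (dg C X) x y = vl C (dg C X) y x := by
  rw [← vl_tp (dg C X), tp_dg]

/-- The class used to contract the two factors `X`. -/
noncomputable def Xi (C : TheoryData.{u, v, 0} 𝒱 ℚ) (X Y Y' : 𝒱.Obj) (q : C.A (X.prod X)) :
    C.A (((X.prod Y).prod (X.prod Y')).prod (Y.prod Y')) :=
  C.pull (Obj.lift (fst _ (Y.prod Y') ≫ snd (X.prod Y) (X.prod Y') ≫ fst X Y')
      (fst _ (Y.prod Y') ≫ fst (X.prod Y) (X.prod Y') ≫ fst X Y)) q *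
    (C.pull (Obj.lift (fst _ (Y.prod Y') ≫ fst (X.prod Y) (X.prod Y') ≫ snd X Y)
      (snd _ (Y.prod Y') ≫ fst Y Y')) (dg C Y) *
    C.pull (Obj.lift (fst _ (Y.prod Y') ≫ snd (X.prod Y) (X.prod Y') ≫ snd X Y')
      (snd _ (Y.prod Y') ≫ snd Y Y')) (dg C Y'))

lemma vl_Xi (q : C.A (X.prod X)) (g : W ⟶ (X.prod Y).prod (X.prod Y')) (z : W ⟶ Y.prod Y') :
    vl C (Xi C X Y Y' q) g z = vl C q (g ≫ snd _ _ ≫ fst X Y') (g ≫ fst _ _ ≫ fst X Y) *
      (vl C (dg C Y) (g ≫ fst _ _ ≫ snd X Y) (z ≫ fst Y Y') *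
        vl C (dg C Y') (g ≫ snd _ _ ≫ snd X Y') (z ≫ snd Y Y')) := by
  rw [vl, Xi, map_mul, map_mul, ← C.pull_comp, ← C.pull_comp, ← C.pull_comp]
  simp only [comp_lift, ← Category.assoc, lift_fst, lift_snd]
  rfl

/-- The `ℚ[u]`-linear part of a correspondence, up to a unit. -/
noncomputable def linPart (C : TheoryData.{u, v, 0} 𝒱 ℚ) (p u : C.A (X.prod X))
    (P : Polynomial ℚ) (Y Y' : 𝒱.Obj) (T : C.A ((X.prod Y).prod (X.prod Y'))) :
    C.A ((X.prod Y).prod (X.prod Y')) :=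
  ∑ n ∈ Finset.range (P.natDegree + 1), P.coeff n • ∑ i ∈ Finset.range n,
    C.comp (C.comp (tens C (pw C p u i) (dg C Y)) T) (tens C (pw C p u (n - 1 - i)) (dg C Y'))

/-- The class which contracts two points. -/
noncomputable def eta (C : TheoryData.{u, v, 0} 𝒱 ℚ) (q : C.A (X.prod X)) (Y Y' : 𝒱.Obj)
    (T : C.A ((X.prod Y).prod (X.prod Y'))) : C.A (Y.prod Y') := C.act (Xi C X Y Y' q) T

lemma linPart_eq {p u : C.A (X.prod X)} {P : Polynomial ℚ} (h : IsCMMotive C X p u P)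
    (T : C.A ((X.prod Y).prod (X.prod Y'))) :
    linPart C p u P Y Y' T = -∑ n ∈ Finset.range (P.natDegree + 1), P.coeff n •
      ∑ i ∈ Finset.range n, tens C (pw C p u i) (eta C (pw C p u (n - 1 - i)) Y Y' T) := by
  -- the value of one term
  have key : ∀ (W : 𝒱.Obj) (x y : W ⟶ X) (t : W ⟶ Y) (s : W ⟶ Y') (q q' : C.A (X.prod X)),
      vl C (C.comp (C.comp (tens C q (dg C Y)) T) (tens C q' (dg C Y'))) (Obj.lift x t)
        (Obj.lift y s) =
      C.push (fst W ((X.prod Y).prod (X.prod Y')))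
        (vl C q (fst W _ ≫ x) (snd W _ ≫ fst (X.prod Y) (X.prod Y') ≫ fst X Y) *
          vl C q' (snd W _ ≫ snd (X.prod Y) (X.prod Y') ≫ fst X Y') (fst W _ ≫ y) *
          ((vl C (dg C Y) (snd W _ ≫ fst (X.prod Y) (X.prod Y') ≫ snd X Y) (fst W _ ≫ t) *
          vl C (dg C Y') (snd W _ ≫ snd (X.prod Y) (X.prod Y') ≫ snd X Y') (fst W _ ≫ s)) *
          C.pull (snd W _) T)) := by
    intro W x y t s q q'
    have e0 : C.comp (C.comp (tens C q (dg C Y)) T) (tens C q' (dg C Y')) =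
        C.act (tens C (tp C (tens C q (dg C Y))) (tens C q' (dg C Y'))) T := by
      rw [act_tens C (ch_comm C), tp_tp]
    rw [e0, vl, pull_act, vl_tens, vl_tp, vl_tens, vl_tens]
    congr 1
    simp only [Category.assoc, lift_fst, lift_snd, comp_lift]
    rw [vl_dg_symm (C := C) (X := Y)]
    ring_nf
  -- the contraction
  have key2 : ∀ (W : 𝒱.Obj) (t : W ⟶ Y) (s : W ⟶ Y') (q : C.A (X.prod X)),
      vl C (eta C q Y Y' T) t s =
      C.push (fst W ((X.prod Y).prod (X.prod Y')))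
        (vl C q (snd W _ ≫ snd (X.prod Y) (X.prod Y') ≫ fst X Y')
            (snd W _ ≫ fst (X.prod Y) (X.prod Y') ≫ fst X Y) *
          ((vl C (dg C Y) (snd W _ ≫ fst (X.prod Y) (X.prod Y') ≫ snd X Y) (fst W _ ≫ t) *
          vl C (dg C Y') (snd W _ ≫ snd (X.prod Y) (X.prod Y') ≫ snd X Y') (fst W _ ≫ s)) *
          C.pull (snd W _) T)) := by
    intro W t s q
    rw [eta, vl, pull_act, vl_Xi]
    congr 1
    simp only [comp_lift, lift_fst, lift_snd]
    rw [mul_assoc]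
  apply ext_vl
  intro W z w
  obtain ⟨x, t, rfl⟩ := exists_lift' z
  obtain ⟨y, s, rfl⟩ := exists_lift' w
  set x' : W.prod ((X.prod Y).prod (X.prod Y')) ⟶ X := snd W _ ≫ fst (X.prod Y) (X.prod Y') ≫ fst X Y with hx'
  set y' : W.prod ((X.prod Y).prod (X.prod Y')) ⟶ X := snd W _ ≫ snd (X.prod Y) (X.prod Y') ≫ fst X Y' with hy'
  set Q : C.A (W.prod ((X.prod Y).prod (X.prod Y'))) :=
    (vl C (dg C Y) (snd W _ ≫ fst (X.prod Y) (X.prod Y') ≫ snd X Y) (fst W _ ≫ t) *
          vl C (dg C Y') (snd W _ ≫ snd (X.prod Y) (X.prod Y') ≫ snd X Y') (fst W _ ≫ s)) *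
          C.pull (snd W _) T with hQ
  have h1 : vl C (linPart C p u P Y Y' T) (Obj.lift x t) (Obj.lift y s) =
      C.push (fst W ((X.prod Y).prod (X.prod Y'))) (diagonal C p u P (fst W _ ≫ x) x' y' (fst W _ ≫ y) * Q) := by
    rw [linPart, diagonal, vl_sum, Finset.sum_mul, map_sum]
    refine Finset.sum_congr rfl fun n _ => ?_
    rw [vl_smul, smul_mul_assoc, map_smul, vl_sum, Finset.sum_mul, map_sum]
    congr 1
    refine Finset.sum_congr rfl fun i _ => ?_
    rw [key]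
    rfl
  have h3 : vl C (-∑ n ∈ Finset.range (P.natDegree + 1), P.coeff n •
      ∑ i ∈ Finset.range n, tens C (pw C p u i) (eta C (pw C p u (n - 1 - i)) Y Y' T))
      (Obj.lift x t) (Obj.lift y s) =
      -C.push (fst W ((X.prod Y).prod (X.prod Y'))) (diagonal C p u P (fst W _ ≫ x) (fst W _ ≫ y) y' x' * Q) := by
    rw [vl_neg, diagonal, vl_sum, Finset.sum_mul, map_sum]
    congr 1
    refine Finset.sum_congr rfl fun n _ => ?_
    rw [vl_smul, smul_mul_assoc, map_smul, vl_sum, Finset.sum_mul, map_sum]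
    congr 1
    refine Finset.sum_congr rfl fun i _ => ?_
    rw [vl_tens]
    simp only [lift_fst, lift_snd]
    rw [key2]
    change _ = C.push (fst W ((X.prod Y).prod (X.prod Y'))) (vl C (pw C p u i) (fst W _ ≫ x) (fst W _ ≫ y) *
      vl C (pw C p u (n - 1 - i)) y' x' * Q)
    rw [← pull_vl (fst W ((X.prod Y).prod (X.prod Y'))) (pw C p u i) x y,
      mul_assoc (C.pull _ (vl C (pw C p u i) x y)), C.proj_left]
  rw [h1, h3, eq_neg_iff_add_eq_zero, ← map_add, ← add_mul,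
    h.kimura _ (fst W ((X.prod Y).prod (X.prod Y')) ≫ x) x' y'
      (fst W ((X.prod Y).prod (X.prod Y')) ≫ y), zero_mul, map_zero]

/-- **The key lemma**: the `ℚ[u]`-linear part of a homologically trivial correspondence acts as zero
on the Albanese kernel. -/
theorem linPart_kill {p u : C.A (X.prod X)} {P : Polynomial ℚ} (h : IsCMMotive C X p u P)
    (hpic : PicardOfProducts H) (hY : Y.dim = 1) (hY' : Y'.dim = 1)
    {T : C.A ((X.prod Y).prod (X.prod Y'))} (hT : T ∈ C.gr ((X.prod Y).prod (X.prod Y')) 2)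
    (hcl : H.cl T = 0) {α : C.A (X.prod Y)} (hα : α ∈ albKer C (X.prod Y)) :
    C.act (linPart C p u P Y Y' T) α = 0 := by
  have hd : (X.prod Y).dim = 2 := by rw [dim_prod, h.dim_eq, hY]
  have hd' : (X.prod Y').dim = 2 := by rw [dim_prod, h.dim_eq, hY']
  have h1 : ∀ q ∈ C.gr (X.prod X) 1, ∀ i : ℕ,
      C.act (tens C (pw C p u i) (eta C q Y Y' T)) α = 0 := by
    intro q hq i
    have hXi : Xi C X Y Y' q ∈ C.gr (((X.prod Y).prod (X.prod Y')).prod (Y.prod Y')) 3 := by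
      have hY1 : dg C Y ∈ C.gr (Y.prod Y) 1 := by
        have := dg_mem C Y
        rwa [hY] at this
      have hY2 : dg C Y' ∈ C.gr (Y'.prod Y') 1 := by
        have := dg_mem C Y'
        rwa [hY'] at this
      exact C.mul_mem (C.pull_mem _ hq) (C.mul_mem (C.pull_mem _ hY1) (C.pull_mem _ hY2))
    have hη : eta C q Y Y' T ∈ C.gr (Y.prod Y') 1 := by
      have h2 := act_mem' C (e := -1) (i := 2) (Γ := Xi C X Y Y' q) (x := T)
        (by rw [dim_prod, hd, hd']; exact deg_cast (by norm_num) hXi) hT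
      exact deg_cast (by norm_num) h2
    have hηcl : H.cl (eta C q Y Y' T) = 0 := by
      rw [eta, C.act_apply, H.cl_push, map_mul, H.cl_pull, hcl, map_zero, mul_zero, map_zero]
    obtain ⟨a, b, ha, -, hab⟩ := hpic Y Y' _ hY hY' hη hηcl
    rw [hab]
    exact kill_prod' hd (h.pw_mem i) ha b hα
  rw [linPart_eq h, act_neg, neg_eq_zero, act_sum]
  refine Finset.sum_eq_zero fun n _ => ?_
  rw [act_smul, act_sum, Finset.sum_eq_zero, smul_zero]
  intro i _
  exact h1 _ (h.pw_mem _) i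

end Pool.Agent.U191.CMN
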