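import Pool.Agent.U191.CMN.Alg
import Mathlib.RingTheory.Flat.Basic
import Mathlib.RingTheory.Flat.FaithfullyFlat.Algebra

/-!
# Vanishing of long compositions
-/

open Polynomial TensorProduct

namespace Pool.Agent.U191.CMN

universe v

section bc

variable {M N M' N' : Type*} [AddCommGroup M] [Module ℚ M] [AddCommGroup N] [Module ℚ N]
  [AddCommGroup M'] [Module ℚ M']

/-- Extension of scalars. -/
noncomputable abbrev bc (f : M →ₗ[ℚ] N) : ℂ ⊗[ℚ] M →ₗ[ℂ] ℂ ⊗[ℚ] N := f.baseChange ℂ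

lemma bc_comp (f : M →ₗ[ℚ] N) (g : N →ₗ[ℚ] M') : bc (g ∘ₗ f) = bc g ∘ₗ bc f :=
  LinearMap.baseChange_comp f g

lemma bc_comp_apply (f : M →ₗ[ℚ] N) (g : N →ₗ[ℚ] M') (v : ℂ ⊗[ℚ] M) :
    bc (g ∘ₗ f) v = bc g (bc f v) := by rw [bc_comp]; rfl

lemma bc_sum {ι : Type*} (s : Finset ι) (f : ι → (M →ₗ[ℚ] N)) :
    bc (∑ i ∈ s, f i) = ∑ i ∈ s, bc (f i) :=
  map_sum (LinearMap.baseChangeHom ℚ ℂ M N) f s

lemma bc_smul (r : ℚ) (f : M →ₗ[ℚ] N) : bc (r • f) = r • bc f := LinearMap.baseChange_smul ..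

lemma bc_zero : bc (0 : M →ₗ[ℚ] N) = 0 := LinearMap.baseChange_zero

lemma bc_zero_iff {f : M →ₗ[ℚ] N} : bc f = 0 ↔ f = 0 := by
  constructor
  · intro h
    apply LinearMap.baseChangeHom_injective ℚ M ℂ
    rw [map_zero]
    exact h
  · rintro rfl
    exact LinearMap.baseChange_zero

end bc

variable {Ob 𝒴 J : Type*} {V : Ob → Type*} [∀ a, AddCommGroup (V a)] [∀ a, Module ℚ (V a)]

/-- The data. -/
structure Sys (V : Ob → Type*) [∀ a, AddCommGroup (V a)] [∀ a, Module ℚ (V a)]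
    (R N : ∀ a b, (V a →ₗ[ℚ] V b) → Prop) (o : J → 𝒴 → Ob)
    (g : ∀ j Y, ℕ → Module.End ℚ (V (o j Y))) (P : J → ℚ[X]) : Prop where
  nR : ∀ {a b} {f : V a →ₗ[ℚ] V b}, N a b f → R a b f
  nr : ∀ {a b c} {f : V a →ₗ[ℚ] V b} {h : V b →ₗ[ℚ] V c}, N a b f → R b c h → N a c (h ∘ₗ f)
  rn : ∀ {a b c} {f : V a →ₗ[ℚ] V b} {h : V b →ₗ[ℚ] V c}, R a b f → N b c h → N a c (h ∘ₗ f)
  gR : ∀ j Y n, R (o j Y) (o j Y) (g j Y n)
  mul : ∀ j Y m n, g j Y m * g j Y n = g j Y (m + n)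
  sep : ∀ j, (P j).Separable
  root : ∀ j Y, ∑ n ∈ Finset.range ((P j).natDegree + 1), (P j).coeff n • g j Y n = 0
  lin : ∀ j Y Y' (T : V (o j Y) →ₗ[ℚ] V (o j Y')), N _ _ T →
    ∑ n ∈ Finset.range ((P j).natDegree + 1), (P j).coeff n • ∑ i ∈ Finset.range n,
      (g j Y' (n - 1 - i)) ∘ₗ T ∘ₗ (g j Y i) = 0

/-- Dominated objects. -/
def Dm (V : Ob → Type*) [∀ a, AddCommGroup (V a)] [∀ a, Module ℚ (V a)]
    (R : ∀ a b, (V a →ₗ[ℚ] V b) → Prop) (o : J → 𝒴 → Ob)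
    (g : ∀ j Y, ℕ → Module.End ℚ (V (o j Y))) (a : Ob) : Prop :=
  ∃ (L : Type) (_ : Fintype L) (j : L → J) (Y : L → 𝒴) (b : ∀ l, V (o (j l) (Y l)) →ₗ[ℚ] V a)
    (b' : ∀ l, V a →ₗ[ℚ] V (o (j l) (Y l))), (∀ l, R _ _ (b l)) ∧ (∀ l, R _ _ (b' l)) ∧
    ∑ l, b l ∘ₗ g (j l) (Y l) 0 ∘ₗ b' l = LinearMap.id

/-- Compositions. -/
inductive Ch (V : Ob → Type*) [∀ a, AddCommGroup (V a)] [∀ a, Module ℚ (V a)]
    (N : ∀ a b, (V a →ₗ[ℚ] V b) → Prop) (D : Ob → Prop) : ℕ → ∀ a b, (V a →ₗ[ℚ] V b) → Prop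
  | one {a b} (f : V a →ₗ[ℚ] V b) (ha : D a) (hb : D b) (hf : N a b f) : Ch V N D 1 a b f
  | comp {n a b c} (f : V a →ₗ[ℚ] V b) (h : V b →ₗ[ℚ] V c) (ha : D a) (hf : N a b f)
      (hh : Ch V N D n b c h) : Ch V N D (n + 1) a c (h ∘ₗ f)

lemma Ch.dom {N : ∀ a b, (V a →ₗ[ℚ] V b) → Prop} {D : Ob → Prop} {n : ℕ} {a b : Ob}
    {f : V a →ₗ[ℚ] V b} (h : Ch V N D n a b f) : D a := by cases h <;> assumption

lemma Ch.pos {N : ∀ a b, (V a →ₗ[ℚ] V b) → Prop} {D : Ob → Prop} {n : ℕ} {a b : Ob}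
    {f : V a →ₗ[ℚ] V b} (h : Ch V N D n a b f) : 0 < n := by cases h <;> omega

section main

variable {R N : ∀ a b, (V a →ₗ[ℚ] V b) → Prop} {o : J → 𝒴 → Ob}
    {g : ∀ j Y, ℕ → Module.End ℚ (V (o j Y))} {P : J → ℚ[X]} (S : Sys V R N o g P)

/-- The idempotent. -/
noncomputable def eN (g : ∀ j Y, ℕ → Module.End ℚ (V (o j Y))) (P : J → ℚ[X]) (j : J) (Y : 𝒴)
    (α : ℂ) : Module.End ℂ (ℂ ⊗[ℚ] V (o j Y)) := ei (fun n => bc (g j Y n)) (P j) α

include S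

lemma gmul (j : J) (Y : 𝒴) (m n : ℕ) : (bc (g j Y m) : Module.End ℂ (ℂ ⊗[ℚ] V (o j Y))) *
    bc (g j Y n) = bc (g j Y (m + n)) := by
  rw [← S.mul j Y m n]
  exact (bc_comp _ _).symm

lemma groot (j : J) (Y : 𝒴) : ev (fun n => (bc (g j Y n) : Module.End ℂ (ℂ ⊗[ℚ] V (o j Y))))
    ((P j).map (algebraMap ℚ ℂ)) = 0 := by
  rw [ev_eq, natDegree_map]
  have h := congrArg bc (S.root j Y)
  rw [bc_sum, bc_zero] at h
  rw [← h]
  refine Finset.sum_congr rfl fun n _ => ?_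
  rw [coeff_map, bc_smul]
  exact algebraMap_smul ℂ _ _

/-- The diagonal blocks of the maps of the class `N` are zero. -/
lemma diag (j : J) (Y Y' : 𝒴) {T : V (o j Y) →ₗ[ℚ] V (o j Y')} (hT : N _ _ T) {α : ℂ}
    (hα : α ∈ rts (P j)) (v : ℂ ⊗[ℚ] V (o j Y)) :
    eN g P j Y' α (bc T (eN g P j Y α v)) = 0 := by
  have h0 := congrArg bc (S.lin j Y Y' T hT)
  rw [bc_zero] at h0
  have h1 := congrArg (eN g P j Y' α) (LinearMap.congr_fun h0 (eN g P j Y α v))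
  rw [LinearMap.zero_apply, map_zero, bc_sum, LinearMap.sum_apply, map_sum] at h1
  have h2 : ∀ n, eN g P j Y' α ((bc ((P j).coeff n • ∑ i ∈ Finset.range n,
      (g j Y' (n - 1 - i)) ∘ₗ T ∘ₗ (g j Y i))) (eN g P j Y α v)) =
      (((P j).coeff n : ℂ) * ∑ i ∈ Finset.range n, α ^ (n - 1 - i) * α ^ i) •
        eN g P j Y' α (bc T (eN g P j Y α v)) := by
    intro n
    rw [bc_smul, bc_sum, LinearMap.smul_apply, LinearMap.sum_apply,
      ← algebraMap_smul ℂ ((P j).coeff n), map_smul, map_sum, mul_smul, Finset.sum_smul]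
    congr 1
    refine Finset.sum_congr rfl fun i _ => ?_
    have h3 : bc (g j Y i) (eN g P j Y α v) = α ^ i • eN g P j Y α v :=
      LinearMap.congr_fun (mul_ei (gmul S j Y) (S.sep j) (groot S j Y) i hα) v
    have h4 : ∀ w, eN g P j Y' α (bc (g j Y' (n - 1 - i)) w) =
        α ^ (n - 1 - i) • eN g P j Y' α w := fun w =>
      LinearMap.congr_fun (ei_mul (gmul S j Y') (S.sep j) (groot S j Y') (n - 1 - i) hα) w
    rw [bc_comp_apply, bc_comp_apply, h3, map_smul, map_smul, map_smul, h4, smul_smul,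
      mul_comm]
  rw [Finset.sum_congr rfl fun n _ => h2 n, ← Finset.sum_smul, deriv_eq] at h1
  exact (smul_eq_zero.1 h1).resolve_left (deriv_ne (S.sep j) hα)

omit S in
variable (N o g P) in
/-- The node `(j, α)` is dead for the vector `v`. -/
def Dead {a : Ob} (v : ℂ ⊗[ℚ] V a) (j : J) (α : ℂ) : Prop :=
  ∀ (Y : 𝒴) (f : V a →ₗ[ℚ] V (o j Y)), N a (o j Y) f → eN g P j Y α (bc f v) = 0

omit S in
lemma eN_eq (j : J) (Y : 𝒴) (α : ℂ) : ∃ (s : Finset ℕ) (c : ℕ → ℂ), ∀ w,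
    eN g P j Y α w = ∑ n ∈ s, c n • bc (g j Y n) w := by
  refine ⟨Finset.range ((ep (P j) α).natDegree + 1), (ep (P j) α).coeff, fun w => ?_⟩
  rw [eN, ei, ev_eq, LinearMap.sum_apply]
  rfl

lemma sum_eN (j : J) (Y : 𝒴) (w : ℂ ⊗[ℚ] V (o j Y)) :
    ∑ α ∈ rts (P j), eN g P j Y α w = bc (g j Y 0) w := by
  have := LinearMap.congr_fun (sum_ei (S.sep j) (groot S j Y)) w
  rw [LinearMap.sum_apply] at this
  exact this

lemma expand {a : Ob} {L : Type} [Fintype L] {j : L → J} {Y : L → 𝒴}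
    {b : ∀ l, V (o (j l) (Y l)) →ₗ[ℚ] V a} {b' : ∀ l, V a →ₗ[ℚ] V (o (j l) (Y l))}
    (h : ∑ l, b l ∘ₗ g (j l) (Y l) 0 ∘ₗ b' l = LinearMap.id) (v : ℂ ⊗[ℚ] V a) :
    ∑ l, ∑ α ∈ rts (P (j l)), bc (b l) (eN g P (j l) (Y l) α (bc (b' l) v)) = v := by
  have h1 := congrArg (fun f => bc f v) h
  rw [bc_sum, LinearMap.sum_apply] at h1
  have h2 : bc (LinearMap.id : V a →ₗ[ℚ] V a) v = v :=
    LinearMap.congr_fun LinearMap.baseChange_id v
  rw [h2] at h1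
  refine Eq.trans (Finset.sum_congr rfl fun l _ => ?_) h1
  rw [← map_sum, sum_eN S, bc_comp_apply, bc_comp_apply]

lemma dead_new {a : Ob} {j : J} {Y : 𝒴} {b : V (o j Y) →ₗ[ℚ] V a} (hb : R _ _ b) {α : ℂ}
    (hα : α ∈ rts (P j)) (w : ℂ ⊗[ℚ] V (o j Y)) : Dead N o g P (bc b (eN g P j Y α w)) j α := by
  intro Y' f hf
  rw [← bc_comp_apply]
  exact diag S j Y Y' (S.rn hb hf) hα w

lemma dead_old {a c : Ob} {j : J} {Y : 𝒴} {b : V (o j Y) →ₗ[ℚ] V c} (hb : R _ _ b)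
    {b' : V a →ₗ[ℚ] V (o j Y)} (hb' : N _ _ b') (α : ℂ) {v : ℂ ⊗[ℚ] V a} {i : J} {β : ℂ}
    (hd : Dead N o g P v i β) : Dead N o g P (bc b (eN g P j Y α (bc b' v))) i β := by
  intro Y' f hf
  obtain ⟨s, q, hs⟩ := eN_eq (g := g) (P := P) j Y α
  rw [hs, map_sum, map_sum, map_sum]
  refine Finset.sum_eq_zero fun n _ => ?_
  have h1 := hd Y' _ (S.nr (S.nr (S.nr hb' (S.gR j Y n)) hb) (S.nR hf))
  rw [bc_comp_apply, bc_comp_apply, bc_comp_apply] at h1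
  rw [map_smul, map_smul, map_smul, h1, smul_zero]

variable [Fintype J]

lemma kill {n : ℕ} {a c : Ob} {F : V a →ₗ[ℚ] V c} (h : Ch V N (Dm V R o g) n a c F) :
    ∀ (v : ℂ ⊗[ℚ] V a) (D : Finset (Σ _ : J, ℂ)),
      (∀ ν ∈ D, Dead N o g P v ν.1 ν.2) → D ⊆ Finset.univ.sigma (fun j => rts (P j)) →
      (Finset.univ.sigma (fun j => rts (P j))).card < D.card + n → bc F v = 0 := by
  classical
  induction h with
  | one f ha hb hf =>
    intro v D hD hsub hcard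
    have hDe : D = Finset.univ.sigma (fun j => rts (P j)) :=
      Finset.eq_of_subset_of_card_le hsub (by omega)
    obtain ⟨L, _, j, Y, b, b', hbR, hbR', hid⟩ := hb
    rw [← expand S hid (bc f v)]
    refine Finset.sum_eq_zero fun l _ => Finset.sum_eq_zero fun α hα => ?_
    have h1 : (⟨j l, α⟩ : Σ _ : J, ℂ) ∈ D := by
      rw [hDe, Finset.mem_sigma]
      exact ⟨Finset.mem_univ _, hα⟩
    have h2 := hD _ h1 (Y l) _ (S.nr hf (hbR' l))
    rw [bc_comp_apply] at h2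
    rw [h2, map_zero]
  | comp f h ha hf hh ih =>
    intro v D hD hsub hcard
    obtain ⟨L, _, j, Y, b, b', hbR, hbR', hid⟩ := hh.dom
    rw [bc_comp_apply, ← expand S hid (bc f v), map_sum]
    refine Finset.sum_eq_zero fun l _ => ?_
    rw [map_sum]
    refine Finset.sum_eq_zero fun α hα => ?_
    by_cases h1 : (⟨j l, α⟩ : Σ _ : J, ℂ) ∈ D
    · have h2 := hD _ h1 (Y l) _ (S.nr hf (hbR' l))
      rw [bc_comp_apply] at h2
      rw [h2, map_zero, map_zero]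
    · have e1 : bc (b' l) (bc f v) = bc (b' l ∘ₗ f) v := (bc_comp_apply _ _ _).symm
      rw [e1]
      refine ih _ (insert ⟨j l, α⟩ D) (fun ν hν => ?_) ?_ ?_
      · rcases Finset.mem_insert.1 hν with rfl | hν
        · exact dead_new S (hbR l) hα _
        · exact dead_old S (hbR l) (S.nr hf (hbR' l)) α (hD ν hν)
      · refine Finset.insert_subset ?_ hsub
        rw [Finset.mem_sigma]
        exact ⟨Finset.mem_univ _, hα⟩
      · rw [Finset.card_insert_of_notMem h1]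
        omega

/-- **The main theorem of linear algebra.** -/
theorem chain_zero {n : ℕ} {a c : Ob} {F : V a →ₗ[ℚ] V c} (h : Ch V N (Dm V R o g) n a c F)
    (hn : ∑ j, (P j).natDegree ≤ n) : F = 0 := by
  classical
  have hcard : (Finset.univ.sigma (fun j => rts (P j))).card = ∑ j, (P j).natDegree := by
    rw [Finset.card_sigma]
    exact Finset.sum_congr rfl fun j _ => card_rts (S.sep j)
  rw [← bc_zero_iff]
  apply LinearMap.ext
  intro v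
  obtain ⟨L, _, j, Y, b, b', hbR, hbR', hid⟩ := h.dom
  rw [← expand S hid v, map_sum, LinearMap.zero_apply]
  refine Finset.sum_eq_zero fun l _ => ?_
  rw [map_sum]
  refine Finset.sum_eq_zero fun α hα => ?_
  refine kill S h _ {⟨j l, α⟩} (fun ν hν => ?_) ?_ ?_
  · rw [Finset.mem_singleton.1 hν]
    exact dead_new S (hbR l) hα _
  · rw [Finset.singleton_subset_iff, Finset.mem_sigma]
    exact ⟨Finset.mem_univ _, hα⟩
  · rw [hcard, Finset.card_singleton]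
    omega

end main

end Pool.Agent.U191.CMN
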