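import Pool.Agent.U191.CMN.Key
import Pool.Agent.U191.CMN.Nil

/-!
# Long compositions of homologically degenerate correspondences
-/

open CategoryTheory AlgebraicGeometry

universe u v w

namespace Pool.Agent.U191.CMN

open Pool.Agent.H914 Pool.Agent.H914.VarClass Pool.Agent.H914.VarClass.Obj Pool.Agent.W492.BB
  Pool.Agent.W550.Corr Pool.Agent.TH133 Pool.Agent.Y152.AS Pool.Agent.TH829.Kim
open Pool.Agent.R904.CM (PicardOfProducts)

set_option linter.unusedSectionVars false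

variable {k : Type u} [Field k] {𝒱 : VarClass k} {C : TheoryData.{u, v, 0} 𝒱 ℚ}
  [hC : IsChowProj C] {K : Type w} [Field K] {H : WeilTheoryData.{u, v, w} C K}
  [hH : IsWeilProj H]

/-- Surfaces. -/
abbrev Sf (𝒱 : VarClass k) : Type (u + 1) := {S : 𝒱.Obj // S.dim = 2}

variable (C) in
/-- Zero-cycles in the Albanese kernel. -/
abbrev VK (S : Sf 𝒱) : Type v := ↥(albKer C S.1)

variable (C) in
/-- Maps given by correspondences. -/
def RR (S T : Sf 𝒱) (f : VK C S →ₗ[ℚ] VK C T) : Prop :=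
  ∃ (Γ : C.A (S.1.prod T.1)) (hΓ : Γ ∈ C.gr (S.1.prod T.1) 2), f = ro S.2 T.2 ⟨Γ, hΓ⟩

variable (H) in
/-- Maps given by homologically trivial correspondences. -/
def NN (S T : Sf 𝒱) (f : VK C S →ₗ[ℚ] VK C T) : Prop :=
  ∃ (Γ : C.A (S.1.prod T.1)) (hΓ : Γ ∈ C.gr (S.1.prod T.1) 2), H.cl Γ = 0 ∧
    f = ro S.2 T.2 ⟨Γ, hΓ⟩

variable {J : Type} {X : J → 𝒱.Obj} {p u : ∀ j, C.A ((X j).prod (X j))} {P : J → Polynomial ℚ}
  (hM : ∀ j, IsCMMotive C (X j) (p j) (u j) (P j))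

/-- The products. -/
noncomputable abbrev oo (hX : ∀ j, (X j).dim = 1) (j : J) (Y : {Y : 𝒱.Obj // Y.dim = 1}) : Sf 𝒱 :=
  ⟨(X j).prod Y.1, by rw [dim_prod, hX, Y.2]⟩

include hM in
lemma tens_pw_mem (j : J) (Y : {Y : 𝒱.Obj // Y.dim = 1}) (n : ℕ) :
    tens C (pw C (p j) (u j) n) (dg C Y.1) ∈ C.gr (((X j).prod Y.1).prod ((X j).prod Y.1)) 2 := by
  have h1 : dg C Y.1 ∈ C.gr (Y.1.prod Y.1) 1 := by
    have := dg_mem C Y.1
    rwa [Y.2] at this
  exact C.mul_mem (C.pull_mem _ ((hM j).pw_mem n)) (C.pull_mem _ h1)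

/-- The operators. -/
noncomputable def gg (j : J) (Y : {Y : 𝒱.Obj // Y.dim = 1}) (n : ℕ) :
    Module.End ℚ (VK C (oo (fun j => (hM j).dim_eq) j Y)) :=
  ro (oo (fun j => (hM j).dim_eq) j Y).2 (oo (fun j => (hM j).dim_eq) j Y).2
    ⟨tens C (pw C (p j) (u j) n) (dg C Y.1), tens_pw_mem hM j Y n⟩

lemma gg_apply (j : J) (Y : {Y : 𝒱.Obj // Y.dim = 1}) (n : ℕ)
    (α : VK C (oo (fun j => (hM j).dim_eq) j Y)) :
    (gg hM j Y n α).1 = C.act (tens C (pw C (p j) (u j) n) (dg C Y.1)) α.1 := rfl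

theorem sys (hpic : PicardOfProducts H) :
    Sys (VK C) (RR C) (NN H) (oo (fun j => (hM j).dim_eq)) (gg hM) P where
  nR := by
    rintro a b f ⟨Γ, hΓ, -, rfl⟩
    exact ⟨Γ, hΓ, rfl⟩
  nr := by
    rintro a b c f h ⟨Γ, hΓ, h0, rfl⟩ ⟨Δ, hΔ, rfl⟩
    refine ⟨C.comp Γ Δ, comp_mem2 b.2 a.2 hΓ hΔ, ?_, (ro_comp a.2 b.2 c.2 hΓ hΔ).symm⟩
    rw [cl_comp, h0, zero_comp]
  rn := by
    rintro a b c f h ⟨Γ, hΓ, rfl⟩ ⟨Δ, hΔ, h0, rfl⟩
    refine ⟨C.comp Γ Δ, comp_mem2 b.2 a.2 hΓ hΔ, ?_, (ro_comp a.2 b.2 c.2 hΓ hΔ).symm⟩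
    rw [cl_comp, h0, comp_zero]
  gR j Y n := ⟨_, tens_pw_mem hM j Y n, rfl⟩
  mul j Y m n := by
    apply LinearMap.ext
    intro α
    apply Subtype.ext
    rw [Module.End.mul_apply, gg_apply, gg_apply, gg_apply, ← C.act_comp, tens_comp', dg_comp,
      (hM j).pw_add, add_comm]
  sep j := (hM j).separable
  root j Y := by
    apply LinearMap.ext
    intro α
    apply Subtype.ext
    rw [LinearMap.sum_apply, LinearMap.zero_apply, AddSubmonoidClass.coe_finsetSum]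
    have h1 : C.act (tens C (∑ n ∈ Finset.range ((P j).natDegree + 1),
        (P j).coeff n • pw C (p j) (u j) n) (dg C Y.1)) α.1 = 0 := by
      rw [(hM j).root, tens_zero_left, C.act_zero]
    rw [← tensL_apply, map_sum, LinearMap.sum_apply, act_sum] at h1
    refine Eq.trans (Finset.sum_congr rfl fun n _ => ?_) h1
    rw [map_smul, LinearMap.smul_apply]
    change (P j).coeff n • (gg hM j Y n α).1 =
      C.act ((P j).coeff n • tens C (pw C (p j) (u j) n) (dg C Y.1)) α.1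
    rw [act_smul]
    rfl
  lin j Y Y' T hT := by
    obtain ⟨Γ, hΓ, h0, rfl⟩ := hT
    apply LinearMap.ext
    intro α
    apply Subtype.ext
    rw [LinearMap.sum_apply, LinearMap.zero_apply, AddSubmonoidClass.coe_finsetSum]
    have h1 := linPart_kill (hM j) hpic Y.2 Y'.2 hΓ h0 α.2
    rw [linPart, act_sum] at h1
    refine Eq.trans (Finset.sum_congr rfl fun n _ => ?_) h1
    rw [act_smul, act_sum, LinearMap.smul_apply, LinearMap.sum_apply]
    change (P j).coeff n • ((∑ i ∈ Finset.range n, _ : VK C _)).1 = _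
    rw [AddSubmonoidClass.coe_finsetSum]
    congr 1
    refine Finset.sum_congr rfl fun i _ => ?_
    rw [C.act_comp, C.act_comp]
    rfl

lemma dm {S : 𝒱.Obj} (hS : IsDominatedByMotives C X p S) :
    Dm (VK C) (RR C) (oo (fun j => (hM j).dim_eq)) (gg hM) ⟨S, hS.1⟩ := by
  obtain ⟨hd, L, _, j, Y, b, r, hY, hb, hid⟩ := hS
  have h2 : ∀ l, r l • b l ∈ C.gr (((X (j l)).prod (Y l)).prod S) 2 := fun l =>
    Submodule.smul_mem _ _ (hb l)
  have h3 : ∀ l, tp C (b l) ∈ C.gr (S.prod ((X (j l)).prod (Y l))) 2 := fun l => tp_mem C (hb l)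
  refine ⟨L, inferInstance, j, fun l => ⟨Y l, hY l⟩, fun l => ro _ hd ⟨r l • b l, h2 l⟩,
    fun l => ro hd _ ⟨tp C (b l), h3 l⟩, fun l => ⟨_, h2 l, rfl⟩, fun l => ⟨_, h3 l, rfl⟩, ?_⟩
  apply LinearMap.ext
  intro α
  apply Subtype.ext
  rw [LinearMap.sum_apply, AddSubmonoidClass.coe_finsetSum]
  refine Eq.trans (Finset.sum_congr rfl fun l _ => ?_) (hid α.1 (inAlbKer_iff.2 α.2))
  change C.act (r l • b l) _ = _
  rw [act_smul]
  rfl

lemma nn_of_degenerate {S T : 𝒱.Obj} (hS : S.dim = 2) (hT : T.dim = 2) {Z : C.A (S.prod T)}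
    (hZ : C.Deg 2 Z) (hd : IsHomDegenerate H Z) :
    NN H ⟨S, hS⟩ ⟨T, hT⟩ (ro hS hT ⟨Z, hZ⟩) := by
  obtain ⟨W, hW, h1⟩ := hd.homDeg
  have hm : Z - W ∈ C.gr (S.prod T) 2 := Submodule.sub_mem _ hZ (degenerate_le hS hW)
  refine ⟨Z - W, hm, by rw [map_sub, h1, sub_self], ?_⟩
  apply LinearMap.ext
  intro α
  apply Subtype.ext
  change C.act Z α.1 = C.act (Z - W) α.1
  rw [C.act_sub, degenerate_act hS hW α.2, sub_zero]

lemma chain {n : ℕ} {S T : 𝒱.Obj} {Z : C.A (S.prod T)}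
    (h : IsComposition H (IsDominatedByMotives C X p) n Z) :
    ∃ (hS : S.dim = 2) (hT : T.dim = 2) (hZ : Z ∈ C.gr (S.prod T) 2),
      Ch (VK C) (NN H) (Dm (VK C) (RR C) (oo (fun j => (hM j).dim_eq)) (gg hM)) n ⟨S, hS⟩ ⟨T, hT⟩
        (ro hS hT ⟨Z, hZ⟩) := by
  induction h with
  | one Z hS hT hZ hd =>
    exact ⟨hS.1, hT.1, hZ, Ch.one _ (dm hM hS) (dm hM hT) (nn_of_degenerate hS.1 hT.1 hZ hd)⟩
  | comp Z W hS hZ hd hW ih =>
    obtain ⟨hT, hU, hW', hch⟩ := ih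
    refine ⟨hS.1, hU, comp_mem2 hT hS.1 hZ hW', ?_⟩
    rw [ro_comp hS.1 hT hU hZ hW']
    exact Ch.comp _ _ (dm hM hS) (nn_of_degenerate hS.1 hT hZ hd) hch

include hM in
/-- **The main theorem.** -/
theorem main [Fintype J] (hpic : PicardOfProducts H) {n : ℕ} (hn : ∑ j, (P j).natDegree ≤ n)
    {S T : 𝒱.Obj} {Z : C.A (S.prod T)}
    (h : IsComposition H (IsDominatedByMotives C X p) n Z) : KillsAlbKer C Z := by
  obtain ⟨hS, hT, hZ, hch⟩ := chain hM h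
  have h1 := chain_zero (sys hM hpic) hch hn
  intro α hα
  exact congrArg Subtype.val (LinearMap.congr_fun h1 ⟨α, inAlbKer_iff.1 hα⟩)

end Pool.Agent.U191.CMN
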